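import Mathlib
import Pool.Agent.X203.BaireAffE

/-!
Affine maps of the first Baire class on a compact convex set with values in a Banach space with the
approximation property are pointwise limits of sequences of continuous affine maps.
-/

namespace Pool.Agent.Results.MP_04557e_an.AffineBaireOneAP

open Filter Topology

/-- `f : X → E` is affine (`X` a convex subset of a real vector space, `E` a space over `𝕜 = ℝ, ℂ`). -/
def IsAffine (𝕜 : Type*) [RCLike 𝕜] {V : Type*} [AddCommGroup V] [Module ℝ V] (X : Set V)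
    {E : Type*} [NormedAddCommGroup E] [NormedSpace 𝕜 E] (f : X → E) : Prop :=
  ∀ (x y z : X) (t : ℝ), 0 ≤ t → t ≤ 1 → (z : V) = t • (x : V) + (1 - t) • (y : V) →
    f z = (t : 𝕜) • f x + ((1 - t : ℝ) : 𝕜) • f y

/-- The approximation property: the identity is uniformly approximated on compact sets by bounded
finite-rank operators. -/
def HasAP (𝕜 : Type*) [RCLike 𝕜] (E : Type*) [NormedAddCommGroup E] [NormedSpace 𝕜 E] : Prop :=
  ∀ K : Set E, IsCompact K → ∀ ε : ℝ, 0 < ε → ∃ T : E →L[𝕜] E,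
    FiniteDimensional 𝕜 (LinearMap.range (T : E →ₗ[𝕜] E)) ∧ ∀ x ∈ K, ‖T x - x‖ < ε

/-- `f` is of the first Baire class. -/
def IsBaireOne {X E : Type*} [TopologicalSpace X] [TopologicalSpace E] (f : X → E) : Prop :=
  ∃ φ : ℕ → X → E, (∀ n, Continuous (φ n)) ∧ ∀ x, Tendsto (fun n => φ n x) atTop (𝓝 (f x))

/-- the complex approximation property implies the real one -/
theorem realAP {𝕜 : Type*} [RCLike 𝕜] {E : Type*} [NormedAddCommGroup E] [NormedSpace 𝕜 E]
    [NormedSpace ℝ E] [IsScalarTower ℝ 𝕜 E] (h : HasAP 𝕜 E) :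
    Pool.Agent.X203.BaireAff.RealAP E := by
  intro K hK ε hε
  obtain ⟨T, hT, hTK⟩ := h K hK ε hε
  refine ⟨T.restrictScalars ℝ, ?_, hTK⟩
  haveI := hT
  haveI : FiniteDimensional ℝ (LinearMap.range (T : E →ₗ[𝕜] E)) :=
    FiniteDimensional.trans ℝ 𝕜 _
  let e : (LinearMap.range (T : E →ₗ[𝕜] E)) →ₗ[ℝ]
      (LinearMap.range ((T.restrictScalars ℝ : E →L[ℝ] E) : E →ₗ[ℝ] E)) :=
    { toFun := fun y => ⟨y.1, by
        obtain ⟨x, hx⟩ := y.2
        exact ⟨x, hx⟩⟩
      map_add' := fun a b => rfl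
      map_smul' := fun c a => by
        ext
        rfl }
  have he : Function.Surjective e := by
    rintro ⟨y, x, hx⟩
    exact ⟨⟨y, x, hx⟩, rfl⟩
  exact Module.Finite.of_surjective e he

/-- If `E` has the approximation property, then every affine map `f : X → E` of the first Baire
class on a compact convex set `X` is a pointwise limit of a sequence of continuous affine maps;
the map `f` is bounded, and the sequence can be chosen bounded by any bound `M > 0` of `f`. -/
theorem result (𝕜 : Type*) [RCLike 𝕜] {V : Type*} [AddCommGroup V] [Module ℝ V]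
    [TopologicalSpace V] [IsTopologicalAddGroup V] [ContinuousSMul ℝ V] [LocallyConvexSpace ℝ V]
    [T2Space V] (X : Set V) (hc : IsCompact X) (hconv : Convex ℝ X)
    (E : Type*) [NormedAddCommGroup E] [NormedSpace 𝕜 E] (hAP : HasAP 𝕜 E)
    (f : X → E) (haff : IsAffine 𝕜 X f) (hf : IsBaireOne f) :
    (∃ M : ℝ, 0 < M ∧ ∀ x, ‖f x‖ ≤ M) ∧
    ∀ M : ℝ, 0 < M → (∀ x, ‖f x‖ ≤ M) →
      ∃ a : ℕ → X → E, (∀ n, Continuous (a n)) ∧ (∀ n, IsAffine 𝕜 X (a n)) ∧
        (∀ n x, ‖a n x‖ ≤ M) ∧ ∀ x, Tendsto (fun n => a n x) atTop (𝓝 (f x)) := by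
  letI : NormedSpace ℝ E := NormedSpace.restrictScalars ℝ 𝕜 E
  haveI : IsScalarTower ℝ 𝕜 E := ⟨fun r c x => by
    have h : r • (c • x) = (algebraMap ℝ 𝕜 r) • (c • x) := rfl
    rw [h, smul_smul, Algebra.smul_def]⟩
  have hconvert : ∀ g : X → E, IsAffine 𝕜 X g ↔ Pool.Agent.X203.BaireAff.AffOn X g := by
    intro g
    constructor
    · intro hg x y z t h0 h1 hz
      exact hg x y z t h0 h1 hz
    · intro hg x y z t h0 h1 hz
      exact hg x y z t h0 h1 hz
  obtain ⟨φ, hφc, hlim⟩ := hf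
  refine ⟨Pool.Agent.X203.BaireAff.bounded hc hconv ((hconvert f).mp haff) φ hφc hlim, ?_⟩
  intro M hM hfM
  obtain ⟨a, h1, h2, h3, h4⟩ := Pool.Agent.X203.BaireAff.main' hc hconv (realAP hAP)
    ((hconvert f).mp haff) φ hφc hlim hM hfM
  exact ⟨a, h1, fun n => (hconvert _).mpr (h2 n), h3, h4⟩

end Pool.Agent.Results.MP_04557e_an.AffineBaireOneAP
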